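import Pool.Agent.Y674.CB.Core

/-!
# CB3-E-XLY: asymptotics of `XN` near `χ = i y₀`
-/

set_option autoImplicit false

namespace Pool.Agent.Y674.CB

open Finset Filter Topology Metric
open Pool.Agent.W711.HT
open Pool.Agent.Y472
open Pool.Agent.Y481 (itI itN itG Sep wts cw LI LN)
open scoped Real

lemma rd_mem {y₀ ρ : ℝ} {χ : ℂ} (h : χ ∈ Rc ρ ρ) : χ + y₀ * Complex.I ∈ Rd y₀ ρ := by
  show χ + y₀ * Complex.I - y₀ * Complex.I ∈ Rc ρ ρ
  rw [add_sub_cancel_right]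
  exact h

lemma potE_mono {L e : ℕ} {R R' c B p₀ : ℝ} {S : (ℕ → ℂ) → ℂ} {D : ℕ → (ℕ → ℂ) → ℂ}
    (h : PotE L e R c B p₀ S D) (h0 : 0 < R') (h1 : R' ≤ R) : PotE L e R' c B p₀ S D where
  he := h.he
  hR := ⟨h0, h1.trans h.hR.2⟩
  hc := h.hc
  hB := h.hB
  hp := h.hp
  dep := h.dep
  an := h.an.mono fun _ hx i => rc_mono h1 (hx i)
  dan := fun j hj => (h.dan j hj).mono fun _ hx i => rc_mono h1 (hx i)
  der := fun ψ hψ => h.der ψ (bx_mono h1 hψ)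
  bd := fun ψ hψ => h.bd ψ (bx_mono h1 hψ)
  ev := fun ψ hψ => h.ev ψ (bx_mono h1 hψ)
  conc := fun ψ hψ => h.conc ψ (bx_mono h1 hψ)
  pos := fun ψ hψ => h.pos ψ (bx_mono h1 hψ)

lemma SDY.sj {y₀ ρ₀ c C : ℝ} {s dl : ℂ → ℂ → ℂ → ℂ} (hS : SDY y₀ ρ₀ c C s dl) :
    SJ ρ₀ (shf y₀ s) := by
  have h1 : DifferentiableOn ℂ (fun p : ℂ × ℂ × ℂ => (p.1, p.2.1, p.2.2 + y₀ * Complex.I))
      (Rc ρ₀ ρ₀ ×ˢ Rc ρ₀ ρ₀ ×ˢ Rc ρ₀ ρ₀) := by fun_prop
  exact hS.san.comp h1 fun p hp => ⟨hp.1, hp.2.1, rd_mem hp.2.2⟩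

/-- XLY -/
theorem xly : S_XLY := by
  intro hPOT hCR hEL hMWK hKB y₀ ρ₀ c C s dl hy hy2 hS k hk
  obtain ⟨⟨⟨ρs, c₂, hρs, hρs1, hc2, HK⟩, _⟩, hE⟩ := hKB y₀ hy hy2
  obtain ⟨R₀, c₀, hR0, hR00, hc0, hP⟩ := hPOT y₀ ρ₀ c C s dl hy hy2 hE hS
  obtain ⟨ρ₁, hρ1, hρ10, HM⟩ := hMWK (fun y h1 h2 => (hKB y h1 h2).1) y₀ ρ₀ c C s dl hy hy2 hS
  have hJ := SDY.sj hS
  have hA : AS y₀ ρ₁ (shf y₀ s) := by
    intro ε hε
    filter_upwards [HM ε hε] with N hN ψ hψ ψ' hψ' χ hχ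
    exact hN ψ hψ ψ' hψ' _ (rd_mem hχ)
  obtain ⟨n, hn⟩ : ∃ n, n = 2 * k := ⟨_, rfl⟩
  have hn2 : 2 ≤ n := by omega
  have hnR : (0 : ℝ) < n := by exact_mod_cast (by omega : 0 < n)
  have hnR1 : (1 : ℝ) ≤ n := by exact_mod_cast (by omega : 1 ≤ n)
  obtain ⟨B₀, hB0, hPn⟩ := hP n hn2
  obtain ⟨R₁, hR1, hR10, hR1ρ⟩ : ∃ R₁ : ℝ, 0 < R₁ ∧ R₁ ≤ R₀ ∧ R₁ ≤ ρ₁ :=
    ⟨min R₀ ρ₁, lt_min hR0 hρ1, min_le_left _ _, min_le_right _ _⟩
  have hPot := potE_mono hPn hR1 hR10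
  have hbet : 0 < bet := hPot.hp
  obtain ⟨C₁, M₁, hC1, hM1, HCR⟩ := hCR (n + 1) n R₁ c₀ B₀ bet (by omega)
  obtain ⟨M₂, hM2, HEL⟩ := hEL (n + 1) n R₁ c₀ B₀ bet C₁ (by omega) hC1
  obtain ⟨r, hr⟩ : ∃ r : ℝ, r = R₁ / 8 := ⟨_, rfl⟩
  have hr0 : 0 < r := by rw [hr]; positivity
  obtain ⟨κ, hκ⟩ : ∃ κ : ℝ, κ = c₂ * min r ρs ^ 2 := ⟨_, rfl⟩
  have hκ0 : 0 < κ := by
    rw [hκ]
    exact mul_pos hc2 (pow_pos (lt_min hr0 hρs) _)
  obtain ⟨τ, hτ, HKε⟩ := HK (κ / (4 * n)) (by positivity)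
  have hρ0 := hS.hρ.1
  obtain ⟨R₃, hR3, hs3⟩ : ∃ R₃ : ℝ, 0 < R₃ ∧ ∀ χ ∈ Rc R₃ R₃,
      ‖shf y₀ s 0 0 χ - ((E0 y₀ : ℝ) : ℂ)‖ ≤ κ / (4 * n) := by
    have hd : ContinuousAt (fun w => shf y₀ s 0 0 w) 0 :=
      (sj3 hJ (rc_zero hρ0) (rc_zero hρ0) (rc_zero hρ0)).continuousAt
    rw [Metric.continuousAt_iff] at hd
    obtain ⟨δ, hδ, hδ2⟩ := hd (κ / (4 * n)) (by positivity)
    refine ⟨δ / 2, by positivity, fun χ hχ => ?_⟩
    have h1 : dist χ 0 < δ := by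
      rw [dist_zero_right]
      have h2 := Complex.norm_le_abs_re_add_abs_im χ
      have h3 := hχ.1
      have h4 := hχ.2
      linarith
    have h2 := hδ2 h1
    have h3 : shf y₀ s 0 0 0 = ((E0 y₀ : ℝ) : ℂ) := by
      unfold shf
      rw [zero_add]
      exact hS.zero
    rw [dist_eq_norm, h3] at h2
    exact h2.le
  -- the radius
  obtain ⟨R, hR, hRR1, hRR3, hRτ, hR_1, hRρ⟩ : ∃ R : ℝ, 0 < R ∧ R ≤ R₁ / 4 ∧ R ≤ R₃ / 2 ∧ R ≤ τ ∧
      R ≤ 1 ∧ R ≤ ρ₀ := by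
    refine ⟨min (min (R₁ / 4) (R₃ / 2)) (min τ (min 1 ρ₀)), ?_, ?_, ?_, ?_, ?_, ?_⟩
    · exact lt_min (lt_min (by positivity) (by positivity)) (lt_min hτ (lt_min one_pos hρ0))
    · exact (min_le_left _ _).trans (min_le_left _ _)
    · exact (min_le_left _ _).trans (min_le_right _ _)
    · exact (min_le_right _ _).trans (min_le_left _ _)
    · exact (min_le_right _ _).trans ((min_le_right _ _).trans (min_le_left _ _))
    · exact (min_le_right _ _).trans ((min_le_right _ _).trans (min_le_right _ _))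
  refine ⟨R, c₀ / 2, hR, hR_1, hRρ, by positivity, B₀ + n * C₁, n * C₁,
    M₁ + M₂ + 1 + 10 * C₁ + 4 * C₁ / R + 8 * n * C₁ / κ, by positivity, by positivity,
    by positivity, ?_⟩
  obtain ⟨M, hM⟩ : ∃ M : ℝ, M = M₁ + M₂ + 1 + 10 * C₁ + 4 * C₁ / R + 8 * n * C₁ / κ := ⟨_, rfl⟩
  rw [← hM]
  have p1 : 0 < 4 * C₁ / R := by positivity
  have p2 : 0 < 8 * n * C₁ / κ := by positivity
  have hM_1 : M₁ ≤ M := by rw [hM]; linarith
  have hM_2 : M₂ ≤ M := by rw [hM]; linarith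
  have hM_3 : 1 ≤ M := by rw [hM]; linarith
  have hM_4 : 10 * C₁ ≤ M := by rw [hM]; linarith
  have hM_5 : 4 * C₁ / R ≤ M := by rw [hM]; linarith
  have hM_6 : 8 * n * C₁ / κ ≤ M := by rw [hM]; linarith
  have hM0 : 0 < M := by linarith
  intro ls hls hlsM
  -- the weights
  have hcw : ∀ i < n, M ≤ |(cw ls i : ℝ)| := fun i hi => cw_bound hlsM (by rw [hls]; omega)
  have hCM1 : C₁ / M ≤ 1 / 10 := by
    rw [div_le_div_iff₀ hM0 (by norm_num)]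
    linarith
  have hCM2 : C₁ / M ≤ R / 4 := by
    rw [div_le_iff₀ hR] at hM_5
    rw [div_le_div_iff₀ hM0 (by norm_num)]
    linarith
  have hCM3 : n * (C₁ / M) ≤ κ / 2 / 4 := by
    rw [div_le_iff₀ hκ0] at hM_6
    rw [← mul_div_assoc, div_div, div_le_div_iff₀ hM0 (by norm_num)]
    linarith
  have haC : ∀ i < n, C₁ / |(cw ls i : ℝ)| ≤ C₁ / M := fun i hi =>
    div_le_div_of_nonneg_left hC1.le hM0 (hcw i hi)
  obtain ⟨zz, hz⟩ := HCR _ _ hPot (cw ls) fun i hi => hM_1.trans (hcw i hi)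
  have hlim := HEL _ _ hPot (cw ls) (fun i hi => hM_2.trans (hcw i hi)) zz hz
  -- the far part
  have hfar : ∀ᶠ N : ℕ in atTop, ∀ χ : ℂ, |χ.re| ≤ R → |χ.im| ≤ R → ∀ ψ : ℕ → ℂ,
      (∀ j < n, |(ψ j).re| ≤ π ∧ |(ψ j).im| ≤ 1 / N) → (∃ j < n, R₁ / 8 ≤ |(ψ j).re|) →
      ‖Wk n N (χ + y₀ * Complex.I) ψ‖ ≤
        Real.exp (N * (n * (shf y₀ s 0 0 χ).re - κ / 2)) := by
    have e1 : ∀ᶠ N : ℕ in atTop, 1 / (N : ℝ) ≤ τ :=
      (tendsto_one_div_atTop_nhds_zero_nat).eventually_le_const hτ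
    filter_upwards [HKε, e1, eventually_ge_atTop 1] with N h2 h3 h4 χ hχ1 hχ2
    have hN : (0 : ℝ) < N := by exact_mod_cast h4
    rintro ψ hψ ⟨j, hj, hj2⟩
    rw [← hr] at hj2
    unfold Wk
    rw [norm_prod]
    have hre : (χ + y₀ * Complex.I).re = χ.re := by simp
    have him : (χ + y₀ * Complex.I).im = χ.im + y₀ := by simp
    have hb : ∀ i ∈ range n, ‖kh N (ψ i) (ψ ((i + 1) % n)) (χ + y₀ * Complex.I)‖ ≤
        Real.exp (N * (E0 y₀ + κ / (4 * n) - if i = j then κ else 0)) := by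
      intro i hi
      rw [mem_range] at hi
      have hi2 : (i + 1) % n < n := Nat.mod_lt _ (by omega)
      have hχπ : |(χ + y₀ * Complex.I).re| ≤ π := by
        have := Real.pi_gt_three
        rw [hre]
        linarith
      have hχi : |(χ + y₀ * Complex.I).im - y₀| ≤ τ := by
        rw [him, add_sub_cancel_right]
        linarith
      refine (h2 (ψ i) (ψ ((i + 1) % n)) _ (hψ i hi).1 ((hψ i hi).2.trans h3) (hψ _ hi2).1
        ((hψ _ hi2).2.trans h3) hχπ hχi).trans ?_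
      apply Real.exp_le_exp.2
      refine mul_le_mul_of_nonneg_left ?_ hN.le
      have q1 : 0 ≤ c₂ * min |(ψ ((i + 1) % n)).re| ρs ^ 2 := by positivity
      have q2 : 0 ≤ c₂ * min |(χ + y₀ * Complex.I).re| ρs ^ 2 := by positivity
      have q3 : (if i = j then κ else 0) ≤ c₂ * min |(ψ i).re| ρs ^ 2 := by
        split_ifs with hij
        · rw [hκ, hij]
          refine mul_le_mul_of_nonneg_left ?_ hc2.le
          exact pow_le_pow_left₀ (lt_min hr0 hρs).le (min_le_min_right _ hj2) 2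
        · positivity
      linarith
    refine (prod_le_prod (fun _ _ => norm_nonneg _) hb).trans ?_
    rw [← Real.exp_sum, ← mul_sum]
    apply Real.exp_le_exp.2
    refine mul_le_mul_of_nonneg_left ?_ hN.le
    rw [sum_sub_distrib, sum_const, card_range, sum_ite_eq', if_pos (mem_range.2 hj),
      nsmul_eq_mul]
    have e2 : (n : ℝ) * (E0 y₀ + κ / (4 * n)) = n * E0 y₀ + κ / 4 := by field_simp
    have h5 := hs3 χ ⟨by linarith, by linarith⟩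
    have h6 := (Complex.abs_re_le_norm _).trans h5
    rw [Complex.sub_re, Complex.ofReal_re, abs_le] at h6
    have h7 := mul_le_mul_of_nonneg_left h6.1 hnR.le
    have e3 : (n : ℝ) * (-(κ / (4 * n))) = -(κ / 4) := by field_simp
    rw [e3, mul_sub] at h7
    rw [e2]
    linarith
  have hO := core hJ hρ10 hA hn2 hR1ρ hPot hC1 hz (fun f h1 h2 => hlim f h1 h2 n le_rfl)
    (by rw [hls, hn]) (fun i _ => rfl) hM0 hcw hR hRR1 (by positivity : 0 < κ / 2) hCM3 hfar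
  obtain ⟨G, hG⟩ : ∃ G : ℂ → ℂ, G = fun χ => Uj (Sr (shf y₀ s) n) (cw ls) n
    (zz n (Function.update 0 n χ)) := ⟨_, rfl⟩
  obtain ⟨z, hz'⟩ : ∃ z : ℂ → ℕ → ℂ, z = fun χ => zz n (Function.update 0 n χ) := ⟨_, rfl⟩
  rw [← hG, ← hz'] at hO
  have hsub : Rc R R ⊆ Rc (R₁ / 2) (R₁ / 2) := rc_mono (by linarith)
  refine ⟨G, z, ?_, ?_, hO.mw, ?_, ?_⟩
  · intro χ hχ
    exact (hO.der χ (hsub hχ)).differentiableAt.differentiableWithinAt
  · intro χ hχ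
    refine ⟨(hO.bdd χ (hsub hχ)).trans ?_, ?_⟩
    · have : C₁ / M ≤ C₁ := div_le_self hC1.le hM_3
      have := mul_le_mul_of_nonneg_left this hnR.le
      linarith
    · have := hO.conc χ (hsub hχ)
      linarith
  · intro χ hχ
    have hχ1 := hsub hχ
    refine ⟨?_, ?_, ?_⟩
    · intro j hj
      rw [← hn] at hj ⊢
      have hs1 := hO.sm χ hχ1 j hj
      have hs2 := hs1.1.trans (haC j hj)
      exact ⟨rc_norm (hs2.trans_lt (by linarith)), hs1.2.1, hs2.trans hCM1, hO.crit χ hχ1 j hj⟩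
    · rw [hO.derG χ hχ1, hn]
      refine sum_congr rfl fun j _ => ?_
      unfold shf
      rw [deriv_comp_add_const]
    · rw [hO.val χ hχ1, hn]
      rfl
  · intro m hm hm0
    have hm' : ∀ i < n, m ≤ |(cw ls i : ℝ)| := fun i hi => cw_bound hm (by rw [hls]; omega)
    refine ⟨fun χ hχ j hj => ?_, fun χ hχ => ?_⟩
    · rw [← hn] at hj
      refine (hO.sm χ (hsub hχ) j hj).1.trans ?_
      calc C₁ / |(cw ls j : ℝ)| ≤ C₁ / m := div_le_div_of_nonneg_left hC1.le hm0 (hm' j hj)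
        _ ≤ n * C₁ / m := by
            refine div_le_div_of_nonneg_right ?_ hm0.le
            exact le_mul_of_one_le_left hC1.le hnR1
    · have h := hO.close χ (hsub hχ) m hm0 hm'
      have e : (n : ℂ) * shf y₀ s 0 0 χ = 2 * k * s 0 0 (χ + y₀ * Complex.I) := by
        unfold shf
        rw [hn]
        push_cast
        ring
      rw [e] at h
      exact h

end Pool.Agent.Y674.CB
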