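import Pool.Agent.Y472.C.Defs
import Pool.Agent.W583.HTSeq

/-!
# CB3-XL: asymptotics of `XN`
-/

set_option autoImplicit false

namespace Pool.Agent.Y674.CB

open Finset Filter Topology Metric
open Pool.Agent.W711.HT
open Pool.Agent.Y472
open Pool.Agent.Y481 (itI itN itG Sep wts cw LI LN)
open scoped Real

lemma rc_open (a b : ℝ) : IsOpen (Rc a b) := by
  have : Rc a b = {z : ℂ | |z.re| < a} ∩ {z : ℂ | |z.im| < b} := rfl
  rw [this]
  exact (isOpen_lt (by fun_prop) continuous_const).inter (isOpen_lt (by fun_prop) continuous_const)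

lemma rc_mono {a b : ℝ} (h : a ≤ b) : Rc a a ⊆ Rc b b := fun _ hz => ⟨hz.1.trans_le h, hz.2.trans_le h⟩

lemma rc_norm {R : ℝ} {z : ℂ} (h : ‖z‖ < R) : z ∈ Rc R R :=
  ⟨(Complex.abs_re_le_norm z).trans_lt h, (Complex.abs_im_le_norm z).trans_lt h⟩

lemma rc_zero {R : ℝ} (h : 0 < R) : (0 : ℂ) ∈ Rc R R := rc_norm (by simpa using h)

lemma rc_neg {R : ℝ} {z : ℂ} (h : z ∈ Rc R R) : -z ∈ Rc R R := by
  refine ⟨?_, ?_⟩
  · rw [Complex.neg_re, abs_neg]; exact h.1
  · rw [Complex.neg_im, abs_neg]; exact h.2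

/-! ### Iterated functionals -/

lemma itG_congr {Λ Λ' : ℕ → (ℂ → ℂ) → ℂ} {n : ℕ} {f f' : (ℕ → ℂ) → ℂ} {χ : ℂ}
    (hΛ : ∀ j < n, Λ j = Λ' j)
    (hf : ∀ ψ ψ' : ℕ → ℂ, ψ n = χ → (∀ i < n, ψ i = ψ' i) → f ψ = f' ψ') (j : ℕ) (hj : j ≤ n) :
    ∀ ψ ψ' : ℕ → ℂ, ψ n = χ → (∀ i < n, ψ i = ψ' i) → itG Λ j f ψ = itG Λ' j f' ψ' := by
  induction j with
  | zero => exact hf
  | succ j ih =>
    intro ψ ψ' h1 h2
    have h3 : (fun w => itG Λ j f (Function.update ψ j w)) =
        fun w => itG Λ' j f' (Function.update ψ' j w) := by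
      funext w
      refine ih (by omega) _ _ ?_ ?_
      · rw [Function.update_of_ne (by omega)]
        exact h1
      · intro i hi
        by_cases hij : i = j
        · subst hij
          rw [Function.update_self, Function.update_self]
        · rw [Function.update_of_ne hij, Function.update_of_ne hij]
          exact h2 i hi
    show Λ j (fun w => itG Λ j f (Function.update ψ j w)) =
      Λ' j (fun w => itG Λ' j f' (Function.update ψ' j w))
    rw [h3, hΛ j (by omega)]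

/-! ### The kernel of the ring is a finite sum of products -/

lemma Rp_diff (N d : ℕ) : Differentiable ℂ (Rp N d) := by
  unfold Rp
  refine Differentiable.fun_finsetProd fun k _ => ?_
  fun_prop

lemma Tg_diff (N d : ℕ) : Differentiable ℂ (Tg N d) := by
  unfold Tg
  refine Differentiable.mul ?_ ?_
  · split_ifs
    · fun_prop
    · fun_prop
  · refine Differentiable.fun_finsetProd fun k _ => ?_
    fun_prop

lemma kh_sep {L : ℕ} (N : ℕ) {i j l : ℕ} (hi : i < L) (hj : j < L) (hl : l < L) :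
    Sep L (fun ψ => kh N (ψ i) (ψ j) (ψ l)) := by
  unfold kh
  refine Sep.sum _ fun d _ => ?_
  have h := (((Sep.var hi (Rp_diff N d)).mul (Sep.var hj (Rp_diff N d))).mul
    (Sep.var hl (Tg_diff N d))).mul (Sep.const (n := L) (((Sd N d : ℂ) ^ 2)⁻¹))
  exact h

/-- the kernel of the ring as a function of `n + 1` variables -/
noncomputable def fW (n N : ℕ) (ψ : ℕ → ℂ) : ℂ := Wk n N (ψ n) ψ

lemma fW_sep {n : ℕ} (hn : 1 ≤ n) (N : ℕ) : Sep (n + 1) (fW n N) := by
  unfold fW Wk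
  refine Sep.prod _ fun j hj => ?_
  rw [mem_range] at hj
  exact kh_sep N (by omega) ((Nat.mod_lt _ (by omega)).trans (by omega)) (by omega)

lemma kh_sep' {L : ℕ} (N : ℕ) {i j : ℕ} (hi : i < L) (hj : j < L) (χ : ℂ) :
    Sep L (fun ψ => kh N (ψ i) (ψ j) χ) := by
  unfold kh
  refine Sep.sum _ fun d _ => ?_
  have h := (((Sep.var hi (Rp_diff N d)).mul (Sep.var hj (Rp_diff N d))).mul
    (Sep.const (n := L) (Tg N d χ))).mul (Sep.const (n := L) (((Sd N d : ℂ) ^ 2)⁻¹))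
  exact h

lemma Wk_sep {n : ℕ} (hn : 1 ≤ n) (N : ℕ) (χ : ℂ) : Sep n (Wk n N χ) := by
  unfold Wk
  refine Sep.prod _ fun j hj => ?_
  rw [mem_range] at hj
  exact kh_sep' N hj (Nat.mod_lt _ (by omega)) χ

lemma fW_eq {n N : ℕ} {χ : ℂ} (ψ ψ' : ℕ → ℂ) (h : ψ n = χ) (h' : ∀ i < n, ψ i = ψ' i) :
    fW n N ψ = Wk n N χ ψ' := by
  unfold fW Wk
  rw [h]
  refine prod_congr rfl fun j hj => ?_
  rw [mem_range] at hj
  rw [h' j hj, h' ((j + 1) % n) (Nat.mod_lt _ (by omega))]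

/-! ### Limits of the kernel -/

lemma kh_lim {ρ₀ c C ρ₁ : ℝ} {s dl : ℂ → ℂ → ℂ → ℂ} (hS : SD3 ρ₀ c C s dl) (h1 : ρ₁ ≤ ρ₀)
    (H : ∀ ε : ℝ, 0 < ε → ∀ᶠ N : ℕ in atTop,
      ∀ ψ ∈ Rc ρ₁ ρ₁, ∀ ψ' ∈ Rc ρ₁ ρ₁, ∀ χ ∈ Rc ρ₁ ρ₁, kh N ψ ψ' χ ≠ 0 ∧
        |Real.log ‖kh N ψ ψ' χ‖ - N * (s ψ ψ' χ).re| ≤ ε * N)
    {x y u : ℕ → ℂ} {x₀ y₀ u₀ : ℂ} (hx0 : x₀ ∈ Rc ρ₁ ρ₁) (hy0 : y₀ ∈ Rc ρ₁ ρ₁) (hu0 : u₀ ∈ Rc ρ₁ ρ₁)
    (hx : Tendsto x atTop (𝓝 x₀)) (hy : Tendsto y atTop (𝓝 y₀)) (hu : Tendsto u atTop (𝓝 u₀)) :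
    (∀ᶠ N : ℕ in atTop, kh N (x N) (y N) (u N) ≠ 0) ∧
    Tendsto (fun N : ℕ => Real.log ‖kh N (x N) (y N) (u N)‖ / N) atTop (𝓝 (s x₀ y₀ u₀).re) := by
  have ex := hx.eventually ((rc_open ρ₁ ρ₁).mem_nhds hx0)
  have ey := hy.eventually ((rc_open ρ₁ ρ₁).mem_nhds hy0)
  have eu := hu.eventually ((rc_open ρ₁ ρ₁).mem_nhds hu0)
  refine ⟨?_, ?_⟩
  · filter_upwards [ex, ey, eu, H 1 one_pos] with N h1 h2 h3 h4
    exact (h4 _ h1 _ h2 _ h3).1
  · have hc : ContinuousAt (fun p : ℂ × ℂ × ℂ => s p.1 p.2.1 p.2.2) (x₀, y₀, u₀) :=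
      hS.san.continuousOn.continuousAt (((rc_open _ _).prod ((rc_open _ _).prod (rc_open _ _))).mem_nhds
        ⟨rc_mono h1 hx0, rc_mono h1 hy0, rc_mono h1 hu0⟩)
    have hs : Tendsto (fun N => (s (x N) (y N) (u N)).re) atTop (𝓝 (s x₀ y₀ u₀).re) := by
      have := (Complex.continuous_re.tendsto _).comp
        (hc.tendsto.comp (hx.prodMk_nhds (hy.prodMk_nhds hu)))
      exact this
    rw [Metric.tendsto_atTop] at hs ⊢
    intro ε hε
    obtain ⟨N₁, hN₁⟩ := hs (ε / 2) (by positivity)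
    have h5 := ((ex.and (ey.and eu)).and (H (ε / 4) (by positivity))).and (eventually_ge_atTop 1)
    obtain ⟨N₂, hN₂⟩ := eventually_atTop.1 h5
    refine ⟨max N₁ N₂, fun N hN => ?_⟩
    obtain ⟨⟨⟨k1, k2, k3⟩, k4⟩, k5⟩ := hN₂ N ((le_max_right _ _).trans hN)
    have k6 := (k4 _ k1 _ k2 _ k3).2
    have k7 := hN₁ N ((le_max_left _ _).trans hN)
    have hNp : (0 : ℝ) < N := by exact_mod_cast k5
    rw [Real.dist_eq] at k7 ⊢
    have k8 : |Real.log ‖kh N (x N) (y N) (u N)‖ / N - (s (x N) (y N) (u N)).re| ≤ ε / 4 := by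
      have : Real.log ‖kh N (x N) (y N) (u N)‖ / N - (s (x N) (y N) (u N)).re =
          (Real.log ‖kh N (x N) (y N) (u N)‖ - N * (s (x N) (y N) (u N)).re) / N := by
        field_simp
      rw [this, abs_div, abs_of_pos hNp, div_le_iff₀ hNp]
      exact k6
    have k9 := abs_sub_le (Real.log ‖kh N (x N) (y N) (u N)‖ / N) (s (x N) (y N) (u N)).re
      (s x₀ y₀ u₀).re
    linarith

/-- limits along sequences of the kernel of the ring -/
lemma fW_lim {ρ₀ c C ρ₁ : ℝ} {s dl : ℂ → ℂ → ℂ → ℂ} (hS : SD3 ρ₀ c C s dl) (h1 : ρ₁ ≤ ρ₀)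
    (H : ∀ ε : ℝ, 0 < ε → ∀ᶠ N : ℕ in atTop,
      ∀ ψ ∈ Rc ρ₁ ρ₁, ∀ ψ' ∈ Rc ρ₁ ρ₁, ∀ χ ∈ Rc ρ₁ ρ₁, kh N ψ ψ' χ ≠ 0 ∧
        |Real.log ‖kh N ψ ψ' χ‖ - N * (s ψ ψ' χ).re| ≤ ε * N) {n : ℕ} (hn : 1 ≤ n) :
    SeqLim (n + 1) ρ₁ (fun N => fW n N) (Sr s n) := by
  intro ψ ψ₀ hψ₀ hψ
  have key : ∀ j < n, _ := fun j hj => kh_lim hS h1 H (hψ₀ j (by omega))
    (hψ₀ ((j + 1) % n) ((Nat.mod_lt _ (by omega)).trans (by omega))) (hψ₀ n (by omega))
    (hψ j (by omega)) (hψ ((j + 1) % n) ((Nat.mod_lt _ (by omega)).trans (by omega)))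
    (hψ n (by omega))
  have h2 : ∀ᶠ N : ℕ in atTop, ∀ j ∈ range n, kh N (ψ N j) (ψ N ((j + 1) % n)) (ψ N n) ≠ 0 := by
    rw [Filter.eventually_all_finset]
    intro j hj
    exact (key j (mem_range.1 hj)).1
  have h3 : Tendsto (fun N : ℕ => ∑ j ∈ range n,
      Real.log ‖kh N (ψ N j) (ψ N ((j + 1) % n)) (ψ N n)‖ / N) atTop
      (𝓝 (∑ j ∈ range n, (s (ψ₀ j) (ψ₀ ((j + 1) % n)) (ψ₀ n)).re)) :=
    tendsto_finsetSum _ fun j hj => (key j (mem_range.1 hj)).2
  have h4 : (Sr s n ψ₀).re = ∑ j ∈ range n, (s (ψ₀ j) (ψ₀ ((j + 1) % n)) (ψ₀ n)).re := by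
    unfold Sr
    rw [Complex.re_sum]
  rw [h4]
  refine h3.congr' ?_
  filter_upwards [h2] with N hN
  unfold fW Wk
  rw [norm_prod, Real.log_prod (fun j hj => norm_ne_zero_iff.2 (hN j hj)), sum_div]

/-! ### From the near part to the whole -/

lemma log_near {a b : ℕ → ℂ} {g g' Cf : ℝ} (hg : 0 < g) (hgg : g' < g)
    (hb : Tendsto (fun N : ℕ => Real.log ‖b N‖ / N) atTop (𝓝 g))
    (hab : ∀ᶠ N : ℕ in atTop, ‖a N - b N‖ ≤ Cf * Real.exp (N * g')) :
    Tendsto (fun N : ℕ => Real.log ‖a N‖ / N) atTop (𝓝 g) := by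
  set δ : ℝ := min ((g - g') / 2) (g / 2) with hδ
  have hδ1 : δ ≤ (g - g') / 2 := min_le_left _ _
  have hδ2 : δ ≤ g / 2 := min_le_right _ _
  have hδ0 : 0 < δ := lt_min (by linarith) (by linarith)
  have e1 : ∀ᶠ N : ℕ in atTop, g - δ < Real.log ‖b N‖ / N :=
    hb.eventually (lt_mem_nhds (by linarith))
  have e2 : ∀ᶠ N : ℕ in atTop, 2 * Cf ≤ Real.exp (N * ((g - g') / 2)) := by
    have : Tendsto (fun N : ℕ => Real.exp (N * ((g - g') / 2))) atTop atTop :=
      Real.tendsto_exp_atTop.comp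
        (tendsto_natCast_atTop_atTop.atTop_mul_const (by linarith))
    exact this.eventually_ge_atTop _
  have e3 : ∀ᶠ N : ℕ in atTop, |Real.log ‖a N‖ / N - Real.log ‖b N‖ / N| ≤ Real.log 2 / N := by
    filter_upwards [e1, e2, hab, eventually_ge_atTop 1] with N h1 h2 h3 h4
    have hN : (0 : ℝ) < N := by exact_mod_cast h4
    have hb0 : 0 < ‖b N‖ := by
      rcases eq_or_lt_of_le (norm_nonneg (b N)) with h | h
      · rw [← h, Real.log_zero, zero_div] at h1
        linarith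
      · exact h
    have hb1 : Real.exp (N * (g - δ)) ≤ ‖b N‖ := by
      rw [← Real.exp_log hb0]
      apply Real.exp_le_exp.2
      rw [lt_div_iff₀ hN] at h1
      linarith
    have h5 : Cf * Real.exp (N * g') ≤ ‖b N‖ / 2 := by
      have h6 : Real.exp (N * ((g - g') / 2)) * Real.exp (N * g') ≤ Real.exp (N * (g - δ)) := by
        rw [← Real.exp_add]
        apply Real.exp_le_exp.2
        nlinarith
      have h7 := mul_le_mul_of_nonneg_right h2 (Real.exp_pos (N * g')).le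
      linarith
    have h8 : ‖a N‖ ≤ 2 * ‖b N‖ := by
      have := norm_le_insert' (a N) (b N)
      linarith
    have h9 : ‖b N‖ / 2 ≤ ‖a N‖ := by
      have := norm_sub_norm_le (b N) (a N)
      rw [norm_sub_rev] at this
      linarith
    have ha0 : 0 < ‖a N‖ := by linarith
    rw [← sub_div, abs_div, abs_of_pos hN]
    refine div_le_div_of_nonneg_right ?_ hN.le
    rw [abs_le]
    constructor
    · have := Real.log_le_log (by positivity) h9
      rw [Real.log_div hb0.ne' (by norm_num)] at this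
      linarith
    · have := Real.log_le_log ha0 h8
      rw [Real.log_mul (by norm_num) hb0.ne'] at this
      linarith
  have e4 : Tendsto (fun N : ℕ => Real.log 2 / N) atTop (𝓝 0) :=
    tendsto_const_nhds.div_atTop tendsto_natCast_atTop_atTop
  have e5 : Tendsto (fun N : ℕ => Real.log ‖a N‖ / N - Real.log ‖b N‖ / N) atTop (𝓝 0) :=
    squeeze_zero_norm' (by simpa only [Real.norm_eq_abs] using e3) e4
  have e6 := e5.add hb
  simp only [sub_add_cancel, zero_add] at e6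
  exact e6

/-! ### Derivatives of the potential of the ring -/

lemma succ_mod {n j : ℕ} (h : j < n) : (j + 1) % n = if j + 1 = n then 0 else j + 1 := by
  split_ifs with h1
  · rw [h1, Nat.mod_self]
  · exact Nat.mod_eq_of_lt (by omega)

section ders

variable {ρ₀ c C : ℝ} {s dl : ℂ → ℂ → ℂ → ℂ} (hS : SD3 ρ₀ c C s dl)

include hS

lemma s_diff {x y u : ℂ} (hx : x ∈ Rc ρ₀ ρ₀) (hy : y ∈ Rc ρ₀ ρ₀) (hu : u ∈ Rc ρ₀ ρ₀) :
    DifferentiableAt ℂ (fun p : ℂ × ℂ × ℂ => s p.1 p.2.1 p.2.2) (x, y, u) :=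
  hS.san.differentiableAt (((rc_open _ _).prod ((rc_open _ _).prod (rc_open _ _))).mem_nhds
    ⟨hx, hy, hu⟩)

lemma s_diff1 {x y u : ℂ} (hx : x ∈ Rc ρ₀ ρ₀) (hy : y ∈ Rc ρ₀ ρ₀) (hu : u ∈ Rc ρ₀ ρ₀) :
    DifferentiableAt ℂ (fun w => s w y u) x := by
  have h1 : DifferentiableAt ℂ (fun w : ℂ => (w, y, u)) x := by fun_prop
  exact (s_diff hS hx hy hu).comp x h1

lemma s_diff2 {x y u : ℂ} (hx : x ∈ Rc ρ₀ ρ₀) (hy : y ∈ Rc ρ₀ ρ₀) (hu : u ∈ Rc ρ₀ ρ₀) :
    DifferentiableAt ℂ (fun w => s x w u) y := by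
  have h1 : DifferentiableAt ℂ (fun w : ℂ => (x, w, u)) y := by fun_prop
  exact (s_diff hS hx hy hu).comp y h1

lemma s_diff3 {x y u : ℂ} (hx : x ∈ Rc ρ₀ ρ₀) (hy : y ∈ Rc ρ₀ ρ₀) (hu : u ∈ Rc ρ₀ ρ₀) :
    DifferentiableAt ℂ (fun w => s x y w) u := by
  have h1 : DifferentiableAt ℂ (fun w : ℂ => (x, y, w)) u := by fun_prop
  exact DifferentiableAt.comp (g := fun p : ℂ × ℂ × ℂ => s p.1 p.2.1 p.2.2)
    (f := fun w : ℂ => (x, y, w)) u (s_diff hS hx hy hu) h1

lemma Dr_last {n : ℕ} (hn : 1 ≤ n) {y : ℕ → ℂ} (hy : ∀ i < n + 1, y i ∈ Rc ρ₀ ρ₀) :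
    Dr s n n y = ∑ j ∈ range n, deriv (fun w => s (y j) (y ((j + 1) % n)) w) (y n) := by
  unfold Dr
  have h1 : (fun w => Sr s n (Function.update y n w)) =
      fun w => ∑ j ∈ range n, s (y j) (y ((j + 1) % n)) w := by
    funext w
    unfold Sr
    refine sum_congr rfl fun j hj => ?_
    rw [mem_range] at hj
    rw [Function.update_self, Function.update_of_ne (by omega),
      Function.update_of_ne (Nat.mod_lt _ (by omega)).ne]
  rw [h1]
  refine (HasDerivAt.fun_sum fun j hj => ?_).deriv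
  rw [mem_range] at hj
  exact (s_diff3 hS (hy j (by omega)) (hy _ ((Nat.mod_lt _ (by omega)).trans (by omega)))
    (hy n (by omega))).hasDerivAt

lemma Dr_mid {n : ℕ} (hn : 2 ≤ n) {y : ℕ → ℂ} (hy : ∀ i < n + 1, y i ∈ Rc ρ₀ ρ₀) {j : ℕ}
    (hj : j < n) : Dr s n ((j + 1) % n) y =
      deriv (fun w => s (y j) w (y n)) (y ((j + 1) % n)) +
        deriv (fun w => s w (y (((j + 1) % n + 1) % n)) (y n)) (y ((j + 1) % n)) := by
  unfold Dr
  have hi : (j + 1) % n < n := Nat.mod_lt _ (by omega)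
  have hji : j ≠ (j + 1) % n := by
    rw [succ_mod hj]
    split_ifs with h <;> omega
  have hinj : ∀ j' < n, (j' + 1) % n = (j + 1) % n → j' = j := by
    intro j' hj' h
    rw [succ_mod hj, succ_mod hj'] at h
    split_ifs at h <;> omega
  set i : ℕ := (j + 1) % n with hidef
  have hii : (i + 1) % n ≠ i := by
    rw [succ_mod hi]
    split_ifs with h <;> omega
  have hi2 : (i + 1) % n < n := Nat.mod_lt _ (by omega)
  have hd : HasDerivAt (fun w => Sr s n (Function.update y i w))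
      (∑ j' ∈ range n, if j' = i then deriv (fun w => s w (y ((i + 1) % n)) (y n)) (y i) else
        if j' = j then deriv (fun w => s (y j) w (y n)) (y i) else 0) (y i) := by
    unfold Sr
    refine HasDerivAt.fun_sum fun j' hj' => ?_
    rw [mem_range] at hj'
    have hn' : ∀ w, Function.update y i w n = y n := fun w => Function.update_of_ne (by omega) _ _
    simp only [hn']
    by_cases h1 : j' = i
    · subst h1
      rw [if_pos rfl]
      have : (fun w => s (Function.update y i w i) (Function.update y i w ((i + 1) % n)) (y n)) =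
          fun w => s w (y ((i + 1) % n)) (y n) := by
        funext w
        rw [Function.update_self, Function.update_of_ne hii]
      rw [this]
      exact (s_diff1 hS (hy i (by omega)) (hy _ (by omega)) (hy n (by omega))).hasDerivAt
    · rw [if_neg h1]
      by_cases h2 : j' = j
      · rw [if_pos h2]
        have : (fun w => s (Function.update y i w j') (Function.update y i w ((j' + 1) % n)) (y n)) =
            fun w => s (y j) w (y n) := by
          funext w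
          rw [Function.update_of_ne h1, h2, ← hidef, Function.update_self]
        rw [this]
        exact (s_diff2 hS (hy j (by omega)) (hy i (by omega)) (hy n (by omega))).hasDerivAt
      · rw [if_neg h2]
        have h3 : (j' + 1) % n ≠ i := fun h => h2 (hinj j' hj' h)
        have : (fun w => s (Function.update y i w j') (Function.update y i w ((j' + 1) % n)) (y n)) =
            fun _ => s (y j') (y ((j' + 1) % n)) (y n) := by
          funext w
          rw [Function.update_of_ne h1, Function.update_of_ne h3]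
        rw [this]
        exact hasDerivAt_const _ _
  rw [hd.deriv]
  have h1 : ∀ j' ∈ range n, (if j' = i then deriv (fun w => s w (y ((i + 1) % n)) (y n)) (y i) else
        if j' = j then deriv (fun w => s (y j) w (y n)) (y i) else 0) =
      (if j' = i then deriv (fun w => s w (y ((i + 1) % n)) (y n)) (y i) else 0) +
        (if j' = j then deriv (fun w => s (y j) w (y n)) (y i) else 0) := by
    intro j' _
    by_cases h1 : j' = i
    · rw [if_pos h1, if_pos h1, if_neg (by omega), add_zero]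
    · rw [if_neg h1, if_neg h1, zero_add]
  rw [sum_congr rfl h1, sum_add_distrib, sum_ite_eq', sum_ite_eq', if_pos (mem_range.2 hi),
    if_pos (mem_range.2 hj), add_comm]

end ders

/-! ### Smaller boxes -/

lemma bx_mono {L : ℕ} {R R' : ℝ} (h : R' ≤ R) : Bx L R' ⊆ Bx L R := fun _ hψ i hi => rc_mono h (hψ i hi)

lemma pot_mono {L : ℕ} {R R' c B p₀ : ℝ} {S : (ℕ → ℂ) → ℂ} {D : ℕ → (ℕ → ℂ) → ℂ}
    (h : Pot L R c B p₀ S D) (h0 : 0 < R') (h1 : R' ≤ R) : Pot L R' c B p₀ S D where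
  hR := ⟨h0, h1.trans h.hR.2⟩
  hc := h.hc
  hB := h.hB
  hp := h.hp
  dep := h.dep
  an := h.an.mono fun _ hx i => rc_mono h1 (hx i)
  dan := fun j hj => (h.dan j hj).mono fun _ hx i => rc_mono h1 (hx i)
  der := fun ψ hψ => h.der ψ (bx_mono h1 hψ)
  bd := fun ψ hψ => h.bd ψ (bx_mono h1 hψ)
  ev := fun ψ hψ => h.ev ψ (bx_mono h1 hψ)
  conc := fun ψ hψ => h.conc ψ (bx_mono h1 hψ)
  pos := fun ψ hψ => h.pos ψ (bx_mono h1 hψ)

/-! ### The weights -/

lemma wts_length (ls : List (ℤ × ℤ)) : (wts ls).length = 2 * ls.length := by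
  unfold wts
  induction ls with
  | nil => rfl
  | cons p l ih =>
    rw [List.map_cons, List.flatten_cons, List.length_append, ih, List.length_cons]
    simp
    ring

lemma cw_bound {ls : List (ℤ × ℤ)} {M : ℝ} (h : ∀ p ∈ ls, M ≤ |(p.1 : ℝ)| ∧ M ≤ |(p.2 : ℝ)|)
    {j : ℕ} (hj : j < 2 * ls.length) : M ≤ |(cw ls j : ℝ)| := by
  have h1 : j < (wts ls).length := by rw [wts_length]; exact hj
  have h2 : cw ls j ∈ wts ls := by
    unfold cw
    rw [List.getD_eq_getElem _ _ h1]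
    exact List.getElem_mem h1
  unfold wts at h2
  rw [List.mem_flatten] at h2
  obtain ⟨l, hl, h3⟩ := h2
  rw [List.mem_map] at hl
  obtain ⟨p, hp, rfl⟩ := hl
  rcases List.mem_cons.1 h3 with h4 | h4
  · rw [h4]; exact (h p hp).1
  · rw [List.mem_singleton.1 h4]; exact (h p hp).2

/-! ### The theorem -/

/-- XL: asymptotics of `XN` -/
theorem xl : S_XL := by
  intro hPOT hCR hEL hMWK hKB ρ₀ c C s dl hS k hk
  obtain ⟨R₀, c₀, hR0, hR00, hc0, hP⟩ := hPOT ρ₀ c C s dl hS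
  obtain ⟨ρ₁, hρ1, hρ10, HM⟩ := hMWK hKB ρ₀ c C s dl hS
  obtain ⟨⟨ρs, hρs, hρs1, HK⟩, _⟩ := hKB
  obtain ⟨n, hn⟩ : ∃ n, n = 2 * k := ⟨_, rfl⟩
  have hn2 : 2 ≤ n := by omega
  have hnR : (0 : ℝ) < n := by exact_mod_cast (by omega : 0 < n)
  obtain ⟨B₀, hB0, hPn⟩ := hP n hn2
  obtain ⟨R₁, hR1, hR10, hR1ρ⟩ : ∃ R₁ : ℝ, 0 < R₁ ∧ R₁ ≤ R₀ ∧ R₁ ≤ ρ₁ :=
    ⟨min R₀ ρ₁, lt_min hR0 hρ1, min_le_left _ _, min_le_right _ _⟩
  have hPot : Pot (n + 1) R₁ c₀ B₀ bet (Sr s n) (Dr s n) := pot_mono hPn hR1 hR10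
  have hbet : 0 < bet := hPot.hp
  obtain ⟨C₁, M₁, hC1, hM1, HCR⟩ := hCR (n + 1) R₁ c₀ B₀ bet
  obtain ⟨M₂, hM2, HEL⟩ := hEL (n + 1) R₁ c₀ B₀ bet C₁ hC1
  have hc1 : 0 < c1 := by
    have := Real.pi_pos
    unfold c1
    positivity
  obtain ⟨r, hr⟩ : ∃ r : ℝ, r = R₁ / 8 := ⟨_, rfl⟩
  have hr0 : 0 < r := by rw [hr]; positivity
  obtain ⟨κ, hκ⟩ : ∃ κ : ℝ, κ = c1 * min r ρs ^ 2 := ⟨_, rfl⟩
  have hκ0 : 0 < κ := by
    rw [hκ]
    exact mul_pos hc1 (pow_pos (lt_min hr0 hρs) _)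
  obtain ⟨τ, hτ, HKε⟩ := HK (κ / (4 * n)) (by positivity)
  have hρ0 := hS.hρ.1
  obtain ⟨R₃, hR3, hs3⟩ : ∃ R₃ : ℝ, 0 < R₃ ∧ ∀ χ ∈ Rc R₃ R₃,
      ‖s 0 0 χ - ((2 * bet : ℝ) : ℂ)‖ ≤ κ / (8 * n) := by
    have hd : ContinuousAt (fun w => s 0 0 w) 0 :=
      (s_diff3 hS (rc_zero hρ0) (rc_zero hρ0) (rc_zero hρ0)).continuousAt
    rw [Metric.continuousAt_iff] at hd
    obtain ⟨δ, hδ, hδ2⟩ := hd (κ / (8 * n)) (by positivity)
    refine ⟨δ / 2, by positivity, fun χ hχ => ?_⟩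
    have h1 : dist χ 0 < δ := by
      rw [dist_zero_right]
      have h2 := Complex.norm_le_abs_re_add_abs_im χ
      have h3 := hχ.1
      have h4 := hχ.2
      linarith
    have h2 := hδ2 h1
    rw [dist_eq_norm, hS.zero] at h2
    exact h2.le
  -- the radius
  obtain ⟨R, hR, hRR1, hRR3, hRτ, hR_1, hRπ⟩ : ∃ R : ℝ, 0 < R ∧ R ≤ R₁ / 4 ∧ R ≤ R₃ / 2 ∧ R ≤ τ ∧
      R ≤ 1 ∧ R ≤ ρ₀ := by
    refine ⟨min (min (R₁ / 4) (R₃ / 2)) (min τ (min 1 ρ₀)), ?_, ?_, ?_, ?_, ?_, ?_⟩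
    · exact lt_min (lt_min (by positivity) (by positivity)) (lt_min hτ (lt_min one_pos hρ0))
    · exact (min_le_left _ _).trans (min_le_left _ _)
    · exact (min_le_left _ _).trans (min_le_right _ _)
    · exact (min_le_right _ _).trans (min_le_left _ _)
    · exact (min_le_right _ _).trans ((min_le_right _ _).trans (min_le_left _ _))
    · exact (min_le_right _ _).trans ((min_le_right _ _).trans (min_le_right _ _))
  refine ⟨R, c₀ / 2, hR, hR_1, hRπ, by positivity, B₀ + n * C₁, n * C₁,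
    M₁ + M₂ + 1 + 10 * C₁ + 4 * C₁ / R + 8 * n * C₁ / κ, by positivity, by positivity,
    by positivity, ?_⟩
  obtain ⟨M, hM⟩ : ∃ M : ℝ, M = M₁ + M₂ + 1 + 10 * C₁ + 4 * C₁ / R + 8 * n * C₁ / κ := ⟨_, rfl⟩
  rw [← hM]
  have p1 : 0 < 4 * C₁ / R := by positivity
  have p2 : 0 < 8 * n * C₁ / κ := by positivity
  have hM_1 : M₁ ≤ M := by rw [hM]; linarith
  have hM_2 : M₂ ≤ M := by rw [hM]; linarith
  have hM_3 : 1 ≤ M := by rw [hM]; linarith
  have hM_4 : 10 * C₁ ≤ M := by rw [hM]; linarith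
  have hM_5 : 4 * C₁ / R ≤ M := by rw [hM]; linarith
  have hM_6 : 8 * n * C₁ / κ ≤ M := by rw [hM]; linarith
  have hM0 : 0 < M := by linarith
  intro ls hls hlsM
  -- the weights
  have hcw : ∀ i < n, M ≤ |(cw ls i : ℝ)| := fun i hi => cw_bound hlsM (by rw [hls]; omega)
  obtain ⟨a, ha⟩ : ∃ a : ℕ → ℤ, a = fun i => if i < n then cw ls i else ⌈M⌉ := ⟨_, rfl⟩
  have ha1 : ∀ i < n, a i = cw ls i := fun i hi => by rw [ha]; exact if_pos hi
  have ha2 : ∀ i < n + 1, M ≤ |(a i : ℝ)| := by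
    intro i hi
    by_cases h : i < n
    · rw [ha1 i h]; exact hcw i h
    · rw [ha]
      simp only [if_neg h]
      exact (Int.le_ceil M).trans (le_abs_self _)
  have haC : ∀ i < n, C₁ / |(a i : ℝ)| ≤ C₁ / M := fun i hi =>
    div_le_div_of_nonneg_left hC1.le hM0 (ha2 i (by omega))
  have hCM1 : C₁ / M ≤ 1 / 10 := by
    rw [div_le_div_iff₀ hM0 (by norm_num)]
    linarith
  have hCM2 : C₁ / M ≤ R / 4 := by
    rw [div_le_iff₀ hR] at hM_5
    rw [div_le_div_iff₀ hM0 (by norm_num)]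
    linarith
  have hCM3 : n * (C₁ / M) ≤ κ / 8 := by
    rw [div_le_iff₀ hκ0] at hM_6
    rw [← mul_div_assoc, div_le_div_iff₀ hM0 (by norm_num)]
    linarith
  obtain ⟨zz, hz⟩ := HCR (Sr s n) (Dr s n) hPot a fun i hi => hM_1.trans (ha2 i hi)
  have hlim := HEL (Sr s n) (Dr s n) hPot a (fun i hi => hM_2.trans (ha2 i hi)) zz hz
    (fun N => fW n N) (fun N => fW_sep (by omega) N) (by
      intro ψ ψ₀ h1 h2
      exact fW_lim hS hρ10 HM (by omega) ψ ψ₀ (bx_mono (by linarith) h1) h2) n (by omega)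
  -- the function
  obtain ⟨up, hup⟩ : ∃ up : ℂ → ℕ → ℂ, up = fun χ => Function.update (0 : ℕ → ℂ) n χ := ⟨_, rfl⟩
  have hupn : ∀ χ, up χ n = χ := fun χ => by rw [hup]; exact Function.update_self _ _ _
  have hupi : ∀ χ, ∀ i, i ≠ n → up χ i = 0 := fun χ i hi => by
    rw [hup]; exact Function.update_of_ne hi _ _
  have hupu : ∀ χ w, Function.update (up χ) n w = up w := fun χ w => by
    rw [hup]; exact Function.update_idem _ _ _
  have hupB : ∀ χ ∈ Rc (R₁ / 2) (R₁ / 2), up χ ∈ Bx (n + 1) (R₁ / 2) := by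
    intro χ hχ i hi
    by_cases h : i = n
    · rw [h, hupn]; exact hχ
    · rw [hupi χ i h]; exact rc_zero (by positivity)
  have hyn : ∀ χ ∈ Rc (R₁ / 2) (R₁ / 2), zz n (up χ) n = χ := fun χ hχ => by
    rw [hz.rest n (by omega) (up χ) (hupB χ hχ) n le_rfl, hupn]
  have hysm : ∀ χ ∈ Rc (R₁ / 2) (R₁ / 2), ∀ i < n, ‖zz n (up χ) i‖ ≤ C₁ / M := fun χ hχ i hi =>
    (hz.sm n (by omega) (up χ) (hupB χ hχ) i hi).1.trans (haC i hi)
  have hR1ρ0 : R₁ ≤ ρ₀ := hR1ρ.trans hρ10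
  have hyB : ∀ χ ∈ Rc (R₁ / 2) (R₁ / 2), ∀ i < n + 1, zz n (up χ) i ∈ Rc ρ₀ ρ₀ := by
    intro χ hχ i hi
    by_cases h : i = n
    · rw [h, hyn χ hχ]
      exact rc_mono (by linarith) hχ
    · exact rc_norm ((hysm χ hχ i (by omega)).trans_lt (by linarith))
  obtain ⟨G, hG⟩ : ∃ G : ℂ → ℂ, G = fun χ => Uj (Sr s n) a n (zz n (up χ)) := ⟨_, rfl⟩
  have hGd : ∀ χ ∈ Rc (R₁ / 2) (R₁ / 2), HasDerivAt G (Dr s n n (zz n (up χ))) χ := by
    intro χ hχ
    have h := hz.der n (by omega) (up χ) (hupB χ hχ) n le_rfl (by omega)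
    simp only [hupu, hupn] at h
    rw [hG]
    exact h
  have hopen := rc_open (R₁ / 2) (R₁ / 2)
  have hsub : Rc R R ⊆ Rc (R₁ / 2) (R₁ / 2) := rc_mono (by linarith)
  have hclose : ∀ χ ∈ Rc (R₁ / 2) (R₁ / 2), ∀ m : ℝ, 0 < m → (∀ i < n, m ≤ |(a i : ℝ)|) →
      ‖G χ - n * s 0 0 χ‖ ≤ n * C₁ / m := by
    intro χ hχ m hm0 hm
    have h := (hz.close n (by omega) (up χ) (hupB χ hχ)).1
    have e1 : Sr s n (fun i => if i < n then 0 else up χ i) = n * s 0 0 χ := by
      unfold Sr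
      have : ∀ j ∈ range n, s ((fun i => if i < n then 0 else up χ i) j)
          ((fun i => if i < n then 0 else up χ i) ((j + 1) % n))
          ((fun i => if i < n then 0 else up χ i) n) = s 0 0 χ := by
        intro j hj
        rw [mem_range] at hj
        simp only [if_pos hj, if_pos (Nat.mod_lt (j + 1) (by omega : 0 < n)), lt_irrefl, if_false,
          hupn]
      rw [sum_congr rfl this, sum_const, card_range, nsmul_eq_mul]
    rw [e1] at h
    have e2 : ∑ i ∈ range n, C₁ / |(a i : ℝ)| ≤ ∑ _i ∈ range n, C₁ / m :=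
      sum_le_sum fun i hi => div_le_div_of_nonneg_left hC1.le hm0 (hm i (mem_range.1 hi))
    rw [sum_const, card_range, nsmul_eq_mul, ← mul_div_assoc] at e2
    have e3 : G χ = Uj (Sr s n) a n (zz n (up χ)) := by rw [hG]
    rw [e3]
    exact h.trans e2
  have hpos : ∀ χ ∈ Rc (R₁ / 2) (R₁ / 2), bet / 2 ≤ (G χ).re := by
    intro χ hχ
    rw [hG]
    exact (hz.close n (by omega) (up χ) (hupB χ hχ)).2
  have hzer : Sr s n (up 0) = ((4 * k * bet : ℝ) : ℂ) := by
    unfold Sr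
    have : ∀ j ∈ range n, s (up 0 j) (up 0 ((j + 1) % n)) (up 0 n) = ((2 * bet : ℝ) : ℂ) := by
      intro j hj
      rw [mem_range] at hj
      rw [hupi 0 j (by omega), hupi 0 _ (Nat.mod_lt (j + 1) (by omega : 0 < n)).ne, hupn, hS.zero]
    rw [sum_congr rfl this, sum_const, card_range, nsmul_eq_mul, hn]
    push_cast
    ring
  -- the far part
  obtain ⟨Cf, hCf, hfar⟩ := Pool.Agent.Y481.far_part n (cw ls)
  have hr_π : r ≤ π := by
    have := Real.pi_gt_three
    have := hPot.hR.2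
    rw [hr]; linarith
  have hRe : ∀ χ ∈ Rc R₃ R₃, χ ∈ Rc (R₁ / 2) (R₁ / 2) → 2 * n * bet - κ / 4 ≤ (G χ).re := by
    intro χ hχ3 hχ
    have h1 := hclose χ hχ M hM0 (fun i hi => ha2 i (by omega))
    rw [mul_div_assoc] at h1
    have h2 := hs3 χ hχ3
    have h3 : ‖(n : ℂ) * s 0 0 χ - n * ((2 * bet : ℝ) : ℂ)‖ ≤ κ / 8 := by
      rw [← mul_sub, norm_mul, Complex.norm_natCast]
      calc (n : ℝ) * ‖s 0 0 χ - ((2 * bet : ℝ) : ℂ)‖ ≤ n * (κ / (8 * n)) :=
            mul_le_mul_of_nonneg_left h2 hnR.le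
        _ = κ / 8 := by field_simp
    have h4 : ‖G χ - n * ((2 * bet : ℝ) : ℂ)‖ ≤ κ / 4 := by
      have := norm_add_le (G χ - n * s 0 0 χ) ((n : ℂ) * s 0 0 χ - n * ((2 * bet : ℝ) : ℂ))
      rw [sub_add_sub_cancel] at this
      linarith
    have h5 := (Complex.abs_re_le_norm _).trans h4
    have h6 : (G χ - n * ((2 * bet : ℝ) : ℂ)).re = (G χ).re - 2 * n * bet := by
      rw [Complex.sub_re, ← Complex.ofReal_natCast, ← Complex.ofReal_mul, Complex.ofReal_re]
      ring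
    rw [h6, abs_le] at h5
    linarith
  have hfarb : ∀ᶠ N : ℕ in atTop, ∀ χ : ℂ, |χ.re| ≤ R → |χ.im| ≤ R →
      ‖XN ls N χ - itN (fun _ => R₁ / 8) a N n (fW n N) (up χ)‖ ≤
        Cf * Real.exp (N * (2 * n * bet - κ + κ / 4)) := by
    have e1 : ∀ᶠ N : ℕ in atTop, 1 / (N : ℝ) ≤ τ :=
      (tendsto_one_div_atTop_nhds_zero_nat).eventually_le_const hτ
    filter_upwards [hfar (fun _ => r) (fun _ _ => ⟨hr0, hr_π⟩), HKε, e1, eventually_ge_atTop 1] with
      N h1 h2 h3 h4 χ hχ1 hχ2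
    have hN : (0 : ℝ) < N := by exact_mod_cast h4
    have h5 := h1 (Wk n N χ) (Real.exp (N * (2 * n * bet - κ + κ / 4))) (Real.exp_pos _).le
      (Wk_sep (by omega) N χ) (by
        rintro ψ hψ ⟨j, hj, hj2⟩
        unfold Wk
        rw [norm_prod]
        have hb : ∀ i ∈ range n, ‖kh N (ψ i) (ψ ((i + 1) % n)) χ‖ ≤
            Real.exp (N * (2 * bet + κ / (4 * n) - if i = j then κ else 0)) := by
          intro i hi
          rw [mem_range] at hi
          have hi2 : (i + 1) % n < n := Nat.mod_lt _ (by omega)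
          have hχπ : |χ.re| ≤ π := by
            have := Real.pi_gt_three
            linarith
          refine (h2 (ψ i) (ψ ((i + 1) % n)) χ (hψ i hi).1 ((hψ i hi).2.trans h3) (hψ _ hi2).1
            ((hψ _ hi2).2.trans h3) hχπ (hχ2.trans hRτ)).trans ?_
          apply Real.exp_le_exp.2
          refine mul_le_mul_of_nonneg_left ?_ hN.le
          have q1 : 0 ≤ c1 * min |(ψ ((i + 1) % n)).re| ρs ^ 2 := by positivity
          have q2 : 0 ≤ c1 * min |χ.re| ρs ^ 2 := by positivity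
          have q3 : (if i = j then κ else 0) ≤ c1 * min |(ψ i).re| ρs ^ 2 := by
            split_ifs with hij
            · rw [hκ, hij]
              refine mul_le_mul_of_nonneg_left ?_ hc1.le
              exact pow_le_pow_left₀ (lt_min hr0 hρs).le (min_le_min_right _ hj2) 2
            · positivity
          linarith
        refine (prod_le_prod (fun _ _ => norm_nonneg _) hb).trans ?_
        rw [← Real.exp_sum, ← mul_sum]
        apply Real.exp_le_exp.2
        refine mul_le_mul_of_nonneg_left ?_ hN.le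
        rw [sum_sub_distrib, sum_const, card_range, sum_ite_eq', if_pos (mem_range.2 hj),
          nsmul_eq_mul]
        have : (n : ℝ) * (2 * bet + κ / (4 * n)) = 2 * n * bet + κ / 4 := by field_simp
        rw [this]
        linarith)
    have e2 : XN ls N χ = itI (cw ls) N n (Wk n N χ) 0 := by
      unfold XN
      rw [hls, ← hn]
    have e3 : itN (fun _ => R₁ / 8) a N n (fW n N) (up χ) =
        itN (fun _ => r) (cw ls) N n (Wk n N χ) 0 := by
      unfold itN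
      refine itG_congr (χ := χ) (fun j hj => ?_) (fun ψ ψ' => fW_eq ψ ψ') n le_rfl (up χ) 0 (hupn χ)
        fun i hi => hupi χ i (by omega)
      rw [ha1 j hj, hr]
    rw [e2, e3]
    exact h5
  -- asymptotics
  obtain ⟨K, hK⟩ : ∃ K : Set ℂ, K = {z : ℂ | |z.re| ≤ R ∧ |z.im| ≤ R} := ⟨_, rfl⟩
  have hKc : IsCompact K := by
    rw [hK]
    refine Metric.isCompact_of_isClosed_isBounded ?_ ?_
    · have h1 : IsClosed {z : ℂ | |z.re| ≤ R} := isClosed_le (by fun_prop) continuous_const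
      have h2 : IsClosed {z : ℂ | |z.im| ≤ R} := isClosed_le (by fun_prop) continuous_const
      exact h1.inter h2
    · rw [isBounded_iff_forall_norm_le]
      refine ⟨2 * R, fun z hz => ?_⟩
      have h1 := Complex.norm_le_abs_re_add_abs_im z
      have h2 := hz.1
      have h3 := hz.2
      linarith
  have hKsub : ∀ z ∈ K, z ∈ Rc (R₁ / 2) (R₁ / 2) ∧ z ∈ Rc R₃ R₃ := by
    intro z hz
    rw [hK] at hz
    have h2 := hz.1
    have h3 := hz.2
    exact ⟨⟨by linarith, by linarith⟩, ⟨by linarith, by linarith⟩⟩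
  have hseq := Pool.Agent.W583.HT.seq ℂ K hKc (fun N z => Real.log ‖XN ls N z‖ / N)
    (fun z => (G z).re) (by
      intro z hz
      exact (Complex.continuous_re.continuousAt.comp
        (hGd z (hKsub z hz).1).continuousAt).continuousWithinAt) (by
      intro p p₀ hp₀ hp hpt
      obtain ⟨h1, h3⟩ := hKsub p₀ hp₀
      have hnear := hlim (fun N => up (p N)) (up p₀) (hupB p₀ h1) (by
        intro i hi
        by_cases h : i = n
        · rw [h]
          simp only [hupn]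
          exact hpt
        · simp only [hupi _ i h]
          exact tendsto_const_nhds)
      have e0 : (fun ψ => Uj (Sr s n) a n (zz n ψ)) (up p₀) = G p₀ := by rw [hG]
      rw [e0] at hnear
      have hlow := hRe p₀ h3 h1
      have hps := hpos p₀ h1
      refine log_near (b := fun N => itN (fun _ => R₁ / 8) a N n (fW n N) (up (p N)))
        (g' := 2 * n * bet - κ + κ / 4) (Cf := Cf) (by linarith) (by linarith) hnear ?_
      filter_upwards [hfarb] with N hN
      have := hp N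
      rw [hK] at this
      exact hN (p N) this.1 this.2)
  have hGeq : ∀ χ, G χ = Uj (Sr s n) a n (zz n (up χ)) := fun χ => by rw [hG]
  refine ⟨G, fun χ => zz n (up χ), ?_, ?_, ?_, ?_, ?_, ?_⟩
  · intro χ hχ
    exact (hGd χ (hsub hχ)).differentiableAt.differentiableWithinAt
  · intro χ hχ
    have h := hz.ev n (by omega) (up χ) (hupB χ (hsub hχ)) n le_rfl (by omega)
    rw [hupu, hupn] at h
    rw [hGeq, hGeq, h]
  · intro χ hχ
    refine ⟨?_, ?_, hpos χ (hsub hχ)⟩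
    · have h1 := (hz.close n (by omega) (up χ) (hupB χ (hsub hχ))).1
      rw [← hGeq] at h1
      have h2 : ∑ i ∈ range n, C₁ / |(a i : ℝ)| ≤ ∑ _i ∈ range n, C₁ := by
        refine sum_le_sum fun i hi => ?_
        refine div_le_self hC1.le ?_
        exact hM_3.trans (ha2 i (by have := mem_range.1 hi; omega))
      rw [sum_const, card_range, nsmul_eq_mul] at h2
      have h3 : (fun i => if i < n then 0 else up χ i) ∈ Bx (n + 1) R₁ := by
        intro i hi
        by_cases h : i < n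
        · simp only [if_pos h]; exact rc_zero hR1
        · simp only [if_neg h]
          have : i = n := by omega
          rw [this, hupn]
          exact rc_mono (by linarith) hχ
      have h4 := (hPot.bd _ h3).1
      have h5 := norm_le_insert' (G χ) (Sr s n (fun i => if i < n then 0 else up χ i))
      linarith
    · have h := hz.conc n (by omega) (up χ) (hupB χ (hsub hχ)) n le_rfl (by omega)
      simp only [hupu, hupn] at h
      have e : deriv G =ᶠ[𝓝 χ] fun w => Dr s n n (zz n (up w)) := by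
        filter_upwards [hopen.mem_nhds (hsub hχ)] with w hw
        exact (hGd w hw).deriv
      rw [e.deriv_eq]
      linarith
  · intro ε hε
    filter_upwards [hseq (min ε (bet / 4)) (lt_min hε (by positivity)), eventually_ge_atTop 1] with
      N hN h1 χ hχ
    have hNp : (0 : ℝ) < N := by exact_mod_cast h1
    have h2 := hN χ (by rw [hK]; exact ⟨hχ.1.le, hχ.2.le⟩)
    have h3 := hpos χ (hsub hχ)
    refine ⟨?_, ?_⟩
    · intro h0
      have h4 := h2.trans (min_le_right _ _)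
      simp only [h0, norm_zero, Real.log_zero, zero_div, zero_sub, abs_neg] at h4
      have h5 := le_abs_self (G χ).re
      linarith
    · have h4 := h2.trans (min_le_left _ _)
      have h5 : Real.log ‖XN ls N χ‖ / N - (G χ).re = (Real.log ‖XN ls N χ‖ - N * (G χ).re) / N := by
        field_simp
      rw [h5, abs_div, abs_of_pos hNp, div_le_iff₀ hNp] at h4
      exact h4
  · intro χ hχ
    have hχ1 := hsub hχ
    have hn' : ∀ j < 2 * k, j < n := fun j hj => by omega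
    refine ⟨?_, ?_, ?_⟩
    · intro j hj
      rw [← hn] at hj ⊢
      have hs1 := hysm χ hχ1 j hj
      have hi : (j + 1) % n < n := Nat.mod_lt _ (by omega)
      refine ⟨rc_norm (hs1.trans_lt (by linarith)), ?_, hs1.trans hCM1, ?_⟩
      · have h := (hz.sm n (by omega) (up χ) (hupB χ hχ1) j hj).2.2.2
        refine lt_of_lt_of_le ?_ h
        have h0 : (a j : ℝ) ≠ 0 := by
          intro h0
          have := ha2 j (by omega)
          rw [h0, abs_zero] at this
          linarith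
        positivity
      · have h := hz.crit n (by omega) (up χ) (hupB χ hχ1) ((j + 1) % n) hi
        rw [Dr_mid hS hn2 (hyB χ hχ1) hj, hyn χ hχ1, ha1 _ hi] at h
        rw [add_assoc]
        exact h
    · rw [(hGd χ hχ1).deriv, Dr_last hS (by omega) (hyB χ hχ1), hyn χ hχ1, hn]
    · rw [hGeq]
      unfold Uj Sr
      rw [hyn χ hχ1, ← sum_add_distrib, hn]
      refine sum_congr rfl fun j hj => ?_
      rw [mem_range] at hj
      rw [← hn] at hj ⊢
      rw [ha1 j hj]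
      ring
  · intro m hm hm0
    have h := hclose 0 (rc_zero (by positivity)) m hm0 fun i hi => by
      rw [ha1 i hi]
      exact cw_bound hm (by rw [hls]; omega)
    have e : (n : ℂ) * s 0 0 0 = ((4 * k * bet : ℝ) : ℂ) := by
      rw [hS.zero, hn]
      push_cast
      ring
    rw [e] at h
    exact h

end Pool.Agent.Y674.CB
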