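import Pool.Agent.Y990.CB.Stm3
import Pool.Agent.Y990.CB.Basic
import Pool.Agent.Y68.CB990.Det

set_option autoImplicit false

open MeasureTheory Set

/-!
CB-MDET: deterministic part of the renormalisation with large clusters.
-/

namespace Pool.Agent.Y674.CB

open Pool.Agent.Y990.CB
open Pool.Agent.H592F (Wet safe bad perc_det near)
open Pool.Agent.Y68.CB990 (bp_right bp_up arith arith2)

noncomputable section

variable {d : ℕ}

/-- the vertices of a large cluster have open arms -/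
lemma arm {M : Mod d} {ω : M.ι → Bool} {ρ N m : ℕ} {a : ℝ} {z x u : Z d}
    (ha : ((2 * m + 1 : ℕ) : ℝ) ^ d ≤ a) (h : Hu M ω ρ N a z x)
    (hu : u ∈ cl M ω (Bo z ρ) x) : Am M ω u m u := by
  have h1 : ¬ (cl M ω (Bo z ρ) x ∩ Bo z N) ⊆ Bo u m := by
    intro hsub
    have h2 := Set.ncard_le_ncard hsub (Bo_finite u m)
    have h3 : (Bo u m).ncard = (2 * m + 1) ^ d := by
      rw [← coe_Bf, Set.ncard_coe_finset, card_Bf]
    rw [h3] at h2
    have h4 : ((cl M ω (Bo z ρ) x ∩ Bo z N).ncard : ℝ) ≤ ((2 * m + 1 : ℕ) : ℝ) ^ d := by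
      exact_mod_cast h2
    have h5 := h.2
    linarith
  obtain ⟨y, hy, hyn⟩ := Set.not_subset.1 h1
  have h6 : (G M ω (Bo z ρ)).Reachable u y :=
    (SimpleGraph.Reachable.symm hu).trans hy.1
  exact exit_Am (self_mem_Bo u m) (Or.inl hyn) h6

/-- two large clusters in almost the same box meet -/
lemma join {M : Mod d} {ω : M.ι → Bool} {ρ N m : ℕ} {a b e : ℝ} {z z' x y : Z d}
    (ha : ((2 * m + 1 : ℕ) : ℝ) ^ d ≤ a) (hb : b + e ≤ 2 * a)
    (he : ((Bo z' N \ Bo z N).ncard : ℝ) ≤ e) (hX : (Xc M ω m N z : ℝ) < b)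
    (hx : Hu M ω ρ N a z x) (hy : Hu M ω ρ N a z' y) : (G M ω univ).Reachable x y := by
  by_contra hc
  obtain ⟨C, hC⟩ : ∃ C, C = cl M ω (Bo z ρ) x ∩ Bo z N := ⟨_, rfl⟩
  obtain ⟨D, hD⟩ : ∃ D, D = cl M ω (Bo z' ρ) y ∩ Bo z' N := ⟨_, rfl⟩
  have hCf : C.Finite := by rw [hC]; exact (Bo_finite z N).subset inter_subset_right
  have hDf : D.Finite := by rw [hD]; exact (Bo_finite z' N).subset inter_subset_right
  have h1 : a < (C.ncard : ℝ) := by rw [hC]; exact hx.2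
  have h2 : a < (D.ncard : ℝ) := by rw [hD]; exact hy.2
  have hdisj : Disjoint C (D ∩ Bo z N) := by
    rw [Set.disjoint_left]
    rintro u huC ⟨huD, -⟩
    rw [hC] at huC
    rw [hD] at huD
    exact hc ((reach_mono (subset_univ _) huC.1).trans
      (SimpleGraph.Reachable.symm (reach_mono (subset_univ _) huD.1)))
  have hsub : C ∪ (D ∩ Bo z N) ⊆ {x | x ∈ Bo z N ∧ Am M ω x m x} := by
    rintro u (hu | ⟨hu, hu'⟩)
    · rw [hC] at hu
      exact ⟨hu.2, arm ha hx hu.1⟩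
    · rw [hD] at hu
      exact ⟨hu', arm ha hy hu.1⟩
  have hAf : {x | x ∈ Bo z N ∧ Am M ω x m x}.Finite :=
    (Bo_finite z N).subset fun u hu => hu.1
  have h3 := Set.ncard_le_ncard hsub hAf
  rw [Set.ncard_union_eq hdisj hCf (hDf.subset inter_subset_left)] at h3
  have h4 : D.ncard ≤ (D ∩ Bo z N).ncard + (Bo z' N \ Bo z N).ncard := by
    have h5 : D ⊆ (D ∩ Bo z N) ∪ (Bo z' N \ Bo z N) := by
      intro u hu
      by_cases huz : u ∈ Bo z N
      · exact Or.inl ⟨hu, huz⟩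
      · refine Or.inr ⟨?_, huz⟩
        rw [hD] at hu
        exact hu.2
    refine (Set.ncard_le_ncard h5 ((hDf.subset inter_subset_left).union
      ((Bo_finite z' N).subset Set.sdiff_subset))).trans (Set.ncard_union_le _ _)
  have h6 : (C.ncard : ℝ) + (D ∩ Bo z N).ncard ≤ Xc M ω m N z := by
    unfold Xc
    exact_mod_cast h3
  have h7 : (D.ncard : ℝ) ≤ (D ∩ Bo z N).ncard + (Bo z' N \ Bo z N).ncard := by
    exact_mod_cast h4
  linarith

/-- the part of a translated box outside the box -/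
lemma shell (z : Z d) (i : Fin d) (w N : ℕ) :
    (((Bo (z + Pi.single i (w : ℤ)) N) \ Bo z N).ncard : ℝ) ≤
      w * ((2 * N + 1 : ℕ) : ℝ) ^ (d - 1) := by
  classical
  have hsub : (Bo (z + Pi.single i (w : ℤ)) N) \ Bo z N ⊆
      ((Fintype.piFinset (fun l => if l = i then Finset.Ioc (z l + N) (z l + w + N) else
        Finset.Icc (z l - N) (z l + N)) : Finset (Z d)) : Set (Z d)) := by
    rintro x ⟨hx, hxn⟩
    have hx' : ∀ l, l ≠ i → |x l - z l| ≤ N := by
      intro l hl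
      have h1 := hx l
      rwa [Pi.add_apply, Pi.single_eq_of_ne hl, add_zero] at h1
    have hi := hx i
    rw [Pi.add_apply, Pi.single_eq_same] at hi
    rw [Finset.mem_coe, Fintype.mem_piFinset]
    intro l
    split_ifs with hl
    · subst hl
      have h2 : ¬ |x l - z l| ≤ N := by
        intro h3
        apply hxn
        intro l'
        by_cases h4 : l' = l
        · rw [h4]; exact h3
        · exact hx' l' h4
      rw [Finset.mem_Ioc]
      rw [abs_le] at hi h2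
      constructor
      · by_contra h5
        apply h2
        constructor <;> omega
      · omega
    · have h1 := abs_le.1 (hx' l hl)
      rw [Finset.mem_Icc]
      constructor <;> linarith [h1.1, h1.2]
  have h1 := Set.ncard_le_ncard hsub (Finset.finite_toSet _)
  rw [Set.ncard_coe_finset, Fintype.card_piFinset,
    ← Finset.mul_prod_erase Finset.univ _ (Finset.mem_univ i)] at h1
  have h2 : ∏ l ∈ Finset.univ.erase i, (if l = i then Finset.Ioc (z l + N) (z l + w + N) else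
        Finset.Icc (z l - N) (z l + N)).card = (2 * N + 1) ^ (d - 1) := by
    rw [Finset.prod_congr rfl (g := fun _ => 2 * N + 1)]
    · rw [Finset.prod_const, Finset.card_erase_of_mem (Finset.mem_univ i), Finset.card_univ,
        Fintype.card_fin]
    · intro l hl
      rw [if_neg (Finset.ne_of_mem_erase hl), Int.card_Icc]
      omega
  rw [h2, if_pos rfl, Int.card_Ioc] at h1
  have h3 : (z i + w + N - (z i + N) : ℤ).toNat = w := by
    have : z i + (w : ℤ) + N - (z i + N) = w := by ring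
    rw [this, Int.toNat_natCast]
  rw [h3] at h1
  exact_mod_cast h1

lemma line' {M : Mod d} {ω : M.ι → Bool} {ρ N m K w : ℕ} {a b : ℝ} {z₀ u : Z d} {i : Fin d}
    (hu : u = Pi.single i (w : ℤ)) (ha : ((2 * m + 1 : ℕ) : ℝ) ^ d ≤ a)
    (hb : b + w * ((2 * N + 1 : ℕ) : ℝ) ^ (d - 1) ≤ 2 * a)
    (hg : ∀ l ≤ K, ω ∈ Gd M ρ N m a b (z₀ + l • u)) :
    (∃ x, Hu M ω ρ N a z₀ x) ∧ (∃ y, Hu M ω ρ N a (z₀ + K • u) y) ∧
      ∀ x y, Hu M ω ρ N a z₀ x → Hu M ω ρ N a (z₀ + K • u) y →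
        (G M ω univ).Reachable x y := by
  have hb0 : b + 0 ≤ 2 * a := by
    have : 0 ≤ (w : ℝ) * ((2 * N + 1 : ℕ) : ℝ) ^ (d - 1) := by positivity
    linarith
  have key : ∀ l ≤ K, (∃ y, Hu M ω ρ N a (z₀ + l • u) y) ∧
      ∀ x y, Hu M ω ρ N a z₀ x → Hu M ω ρ N a (z₀ + l • u) y →
        (G M ω univ).Reachable x y := by
    intro l
    induction l with
    | zero =>
      intro _
      have h0 := hg 0 (by omega)
      rw [zero_smul, add_zero] at h0 ⊢
      refine ⟨h0.1, fun x y hx hy => join ha hb0 ?_ h0.2 hx hy⟩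
      rw [Set.sdiff_self, Set.ncard_empty, Nat.cast_zero]
    | succ l ih =>
      intro hlK
      obtain ⟨⟨x1, hx1⟩, ih2⟩ := ih (by omega)
      refine ⟨(hg (l + 1) hlK).1, fun x y hx hy => ?_⟩
      refine (ih2 x x1 hx hx1).trans (join ha hb ?_ (hg l (by omega)).2 hx1 hy)
      have e : z₀ + (l + 1) • u = z₀ + l • u + Pi.single i (w : ℤ) := by
        rw [← hu, add_assoc, succ_nsmul]
      rw [e]
      exact shell _ i w N
  have h0 := hg 0 (by omega)
  rw [zero_smul, add_zero] at h0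
  exact ⟨h0.1, (key K le_rfl).1, (key K le_rfl).2⟩

theorem mdet : S_mdet := by
  intro d M i j w K ρ N m a b hij hw hK ha hb ω hs
  obtain ⟨v, hv⟩ : ∃ v : Z d, v = Pi.single i (w : ℤ) := ⟨_, rfl⟩
  obtain ⟨v', hv'⟩ : ∃ v' : Z d, v' = Pi.single j (w : ℤ) := ⟨_, rfl⟩
  rw [← hv, ← hv'] at hs
  have hvi : v i = w := by rw [hv, Pi.single_eq_same]
  have hvj : v j = 0 := by rw [hv, Pi.single_eq_of_ne (Ne.symm hij)]
  have hvi' : v' i = 0 := by rw [hv', Pi.single_eq_of_ne hij]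
  have hvj' : v' j = w := by rw [hv', Pi.single_eq_same]
  have hb0 : b + 0 ≤ 2 * a := by
    have : 0 ≤ (w : ℝ) * ((2 * N + 1 : ℕ) : ℝ) ^ (d - 1) := by positivity
    linarith
  -- good blocks
  have good : ∀ s : ℤ × ℤ, ω ∉ Bg M v v' K ρ N m a b s →
      (Xc M ω m N (bp v v' K s) : ℝ) < b ∧ (∃ x, Hu M ω ρ N a (bp v v' K s) x) ∧
      ((∃ y, Hu M ω ρ N a (bp v v' K (s.1 + 1, s.2)) y) ∧
        ∀ x y, Hu M ω ρ N a (bp v v' K s) x → Hu M ω ρ N a (bp v v' K (s.1 + 1, s.2)) y →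
          (G M ω univ).Reachable x y) ∧
      ((∃ y, Hu M ω ρ N a (bp v v' K (s.1, s.2 + 1)) y) ∧
        ∀ x y, Hu M ω ρ N a (bp v v' K s) x → Hu M ω ρ N a (bp v v' K (s.1, s.2 + 1)) y →
          (G M ω univ).Reachable x y) := by
    intro s hbs
    have l1 : ∀ l ≤ K, ω ∈ Gd M ρ N m a b (bp v v' K s + l • v) := by
      intro l hl
      by_contra hc
      exact hbs ⟨l, hl, Or.inl hc⟩
    have l2 : ∀ l ≤ K, ω ∈ Gd M ρ N m a b (bp v v' K s + l • v') := by
      intro l hl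
      by_contra hc
      exact hbs ⟨l, hl, Or.inr hc⟩
    have t0 := l1 0 (Nat.zero_le _)
    rw [zero_smul, add_zero] at t0
    rw [bp_right, bp_up]
    obtain ⟨a1, a2, a3⟩ := line' hv ha hb l1
    obtain ⟨b1, b2, b3⟩ := line' hv' ha hb l2
    exact ⟨t0.2, a1, ⟨a2, a3⟩, b2, b3⟩
  have h00 : ω ∉ Bg M v v' K ρ N m a b (0, 0) := hs 0 (0, 0) ⟨by simp, by simp⟩
  obtain ⟨g1, ⟨x0, hx0⟩, -, -⟩ := good (0, 0) h00
  -- wet sites
  have wet : ∀ s : ℤ × ℤ, Wet (fun s => ω ∈ Bg M v v' K ρ N m a b s) s →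
      0 ≤ s.1 ∧ 0 ≤ s.2 ∧ (∃ y, Hu M ω ρ N a (bp v v' K s) y) ∧
      ∀ y, Hu M ω ρ N a (bp v v' K s) y → (G M ω univ).Reachable x0 y := by
    intro s h
    induction h with
    | zero =>
      refine ⟨le_rfl, le_rfl, ⟨x0, hx0⟩, fun y hy => join ha hb0 ?_ g1 hx0 hy⟩
      rw [Set.sdiff_self, Set.ncard_empty, Nat.cast_zero]
    | right h1 h2 ih =>
      obtain ⟨i1, i2, ⟨y0, hy0⟩, i4⟩ := ih
      obtain ⟨-, -, ⟨a1, a2⟩, -⟩ := good _ h2
      refine ⟨by simp only; omega, i2, a1, fun y hy => ?_⟩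
      exact (i4 y0 hy0).trans (a2 y0 y hy0 hy)
    | up h1 h2 ih =>
      obtain ⟨i1, i2, ⟨y0, hy0⟩, i4⟩ := ih
      obtain ⟨-, -, -, ⟨a1, a2⟩⟩ := good _ h2
      refine ⟨i1, by simp only; omega, a1, fun y hy => ?_⟩
      exact (i4 y0 hy0).trans (a2 y0 y hy0 hy)
  refine ⟨x0, ?_⟩
  show (cl M ω univ x0).Infinite
  intro hfin
  obtain ⟨D, hD⟩ := (hfin.image (fun y : Z d => |y i| + |y j|)).bddAbove
  obtain ⟨s, hw', hsum⟩ := perc_det _ hs ((2 * (D + 2 * N)).toNat + 1)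
  obtain ⟨w1, w2, ⟨y, hy⟩, w4⟩ := wet s hw'
  have hyc : |y i| + |y j| ≤ D := hD ⟨y, w4 y hy, rfl⟩
  have hyi := hy.1 i
  have hyj := hy.1 j
  have ei : bp v v' K s i = K * (s.1 * v i - s.2 * v j) := by
    unfold bp
    simp only [Pi.add_apply, Pi.smul_apply, smul_eq_mul, hvi', hvj]
    ring
  have ej : bp v v' K s j = K * (s.1 * v j + s.2 * v i) := by
    unfold bp
    simp only [Pi.add_apply, Pi.smul_apply, smul_eq_mul, hvj', hvj, hvi]
    ring
  rw [ei] at hyi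
  rw [ej] at hyj
  have hvi1 : |v i| = w := by rw [hvi]; exact abs_of_nonneg (Int.natCast_nonneg w)
  have hbj : |v j| ≤ w := by rw [hvj, abs_zero]; exact Int.natCast_nonneg w
  have hN1 : (1 : ℤ) ≤ w := by exact_mod_cast hw
  have hK1 : (1 : ℤ) ≤ K := by exact_mod_cast hK
  obtain ⟨q3, q4⟩ := arith hvi1 hbj hN1 w1 w2 rfl rfl
  have q5 := arith2 hK1 hyi
  have q6 := arith2 hK1 hyj
  have h7 := Int.self_le_toNat (2 * (D + 2 * N))
  push_cast at hsum
  linarith

end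

end Pool.Agent.Y674.CB
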